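import Pool.Agent.W2helper18.KG.Stm

/-!
# Project KG, piece TR: transfer from the torus to the unit square
-/

set_option autoImplicit false

open MeasureTheory Filter

namespace Pool.Agent.W4helper65.KG

open Pool.Agent.W2helper18.KG

theorem not_summable_min {ψ : ℕ → ℝ}
    (h : ¬ Summable (fun q : ℕ => ψ q ^ 2)) :
    ¬ Summable (fun q : ℕ => min (ψ q) (1 / 8) ^ 2) := by
  intro hs
  apply h
  refine hs.congr_atTop ?_
  have ht := hs.tendsto_atTop_zero
  filter_upwards [ht.eventually_lt_const (show (0 : ℝ) < 1 / 64 by norm_num)] with q hq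
  rcases le_total (ψ q) (1 / 8) with h1 | h1
  · rw [min_eq_left h1]
  · rw [min_eq_right h1] at hq
    norm_num at hq

theorem coord {q s : ℕ} (hq : 0 < q) (x y δ : ℝ)
    (h : (x : UnitAddCircle) ∈ Metric.ball (cc q s y) (δ / q)) :
    ∃ n : ℤ, |(q : ℝ) * x - n - y| < δ := by
  have hq' : (0 : ℝ) < q := by exact_mod_cast hq
  rw [Metric.mem_ball, dist_eq_norm, cc, ← AddCircle.coe_sub, UnitAddCircle.norm_eq,
    lt_div_iff₀ hq'] at h
  refine ⟨s + q * round (x - ((s : ℝ) + y) / q), ?_⟩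
  have e : (q : ℝ) * x - ((s + q * round (x - ((s : ℝ) + y) / q) : ℤ) : ℝ) - y =
      (x - ((s : ℝ) + y) / q - round (x - ((s : ℝ) + y) / q)) * q := by
    push_cast
    field_simp
    ring
  rw [e, abs_mul, abs_of_pos hq']
  exact h

theorem measure_eq : (volume : Measure (ℝ × ℝ)).restrict (Set.Icc (0 : ℝ × ℝ) 1) =
    ((volume : Measure ℝ).restrict (Set.Ioc 0 (0 + 1))).prod
      ((volume : Measure ℝ).restrict (Set.Ioc 0 (0 + 1))) := by
  have h1 : (volume : Measure ℝ).restrict (Set.Ioc 0 (0 + 1)) =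
      (volume : Measure ℝ).restrict (Set.Icc 0 1) := by
    rw [zero_add]
    exact Measure.restrict_congr_set Ioc_ae_eq_Icc
  rw [h1, Measure.prod_restrict]
  have h2 : Set.Icc (0 : ℝ × ℝ) 1 = Set.Icc (0 : ℝ) 1 ×ˢ Set.Icc (0 : ℝ) 1 :=
    (Set.Icc_prod_eq (0 : ℝ × ℝ) 1)
  rw [h2]
  rfl

theorem p_tr : P_TR := by
  intro haet y ψ hψ0 hψ
  have h := haet y (fun q => min (ψ q) (1 / 8)) (fun q => le_min (hψ0 q) (by norm_num))
    (fun q => min_le_right _ _) (not_summable_min hψ)
  have hmp : MeasurePreserving (Prod.map (fun x : ℝ => (x : UnitAddCircle))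
      (fun x : ℝ => (x : UnitAddCircle)))
      (((volume : Measure ℝ).restrict (Set.Ioc 0 (0 + 1))).prod
        ((volume : Measure ℝ).restrict (Set.Ioc 0 (0 + 1))))
      ((volume : Measure UnitAddCircle).prod (volume : Measure UnitAddCircle)) :=
    (UnitAddCircle.measurePreserving_mk 0).prod (UnitAddCircle.measurePreserving_mk 0)
  rw [measure_eq]
  have h2 := hmp.quasiMeasurePreserving.ae h
  filter_upwards [h2] with x hx
  have hinf := Nat.frequently_atTop_iff_infinite.1 hx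
  refine hinf.mono ?_
  rintro q ⟨hq, a, -, ha⟩
  obtain ⟨ha1, ha2⟩ := ha
  obtain ⟨n1, hn1⟩ := coord hq x.1 y.1 _ ha1
  obtain ⟨n2, hn2⟩ := coord hq x.2 y.2 _ ha2
  refine ⟨hq, (n1, n2), ?_⟩
  rw [Prod.norm_def, max_lt_iff]
  refine ⟨?_, ?_⟩
  · have := hn1.trans_le (min_le_left _ _)
    simpa using this
  · have := hn2.trans_le (min_le_left _ _)
    simpa using this

end Pool.Agent.W4helper65.KG
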